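import Pool.Agent.R934.JacNC

/-!
# MP_c8c065_al: the Jacobson radical of a `π`-UU ring is nil

A ring `R` is `π`-UU if each unit has a power of the form `1 + n`, `n` nilpotent. We prove that the Jacobson
radical of each `π`-UU ring is nil, which answers the question in full.

Proof: let `j` be in the radical and suppose that `j` is not nilpotent. There is a prime ideal `P` of the
polynomial ring over the integers which contains all `f` with `f(j) = 0` but not the variable. In the domain
`D = ℤ[X]/P` let `x ≠ 0` be the class of the variable. Since `1 + j f(j)` is a unit of `R` for all `f`, all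
elements `1 + x d` of `D` are roots of unity. In particular `1 + x` is one, of order `n`, so that `x` divides
`n` in `D`, and all `1 + n m`, `m` an integer, are roots of unity in `D`: this is false in characteristic
zero for `m = 1`, and in characteristic `p` (where `p` does not divide `n`) one can make `1 + n m` zero.
-/

set_option autoImplicit false

universe u

namespace Pool.Agent.Results.MP_c8c065_al.JacobsonNil

open Pool.Agent.R934 Polynomial

lemma domain_contra {D : Type*} [CommRing D] [IsDomain D] {x : D} (hx : x ≠ 0)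
    (h : ∀ d : D, ∃ i : ℕ, 1 ≤ i ∧ (1 + x * d) ^ i = 1) : False := by
  obtain ⟨i, hi, hz⟩ := h 1
  rw [mul_one] at hz
  set z := 1 + x with hzdef
  have hfin : IsOfFinOrder z := isOfFinOrder_iff_pow_eq_one.2 ⟨i, hi, hz⟩
  set n := orderOf z with hn
  have hnpos : 0 < n := hfin.orderOf_pos
  have hzn : z ^ n = 1 := pow_orderOf_eq_one z
  have hz1 : z - 1 = x := by rw [hzdef]; ring
  have hsum : ∑ k ∈ Finset.range n, z ^ k = 0 := by
    have h1 : (∑ k ∈ Finset.range n, z ^ k) * (z - 1) = z ^ n - 1 := geom_sum_mul z n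
    rw [hzn, sub_self, hz1] at h1
    exact (mul_eq_zero.1 h1).resolve_right hx
  have hdvd : x ∣ (n : D) := by
    have h1 : (n : D) = ∑ k ∈ Finset.range n, (1 - z ^ k) := by
      rw [Finset.sum_sub_distrib, hsum]
      simp
    rw [h1]
    refine Finset.dvd_sum fun k _ => ?_
    have h2 : (1 : D) - z ∣ 1 ^ k - z ^ k := sub_dvd_pow_sub_pow 1 z k
    rw [one_pow] at h2
    refine dvd_trans ⟨-1, ?_⟩ h2
    rw [hzdef]; ring
  obtain ⟨c, hc⟩ := hdvd
  obtain ⟨p, hp⟩ := CharP.exists D
  rcases CharP.char_is_prime_or_zero D p with hprime | hzero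
  · have : Fact p.Prime := ⟨hprime⟩
    by_cases hn0 : (n : D) = 0
    · rw [CharP.cast_eq_zero_iff D p] at hn0
      obtain ⟨m, hm⟩ := hn0
      have h1 : (z ^ m - 1) ^ p = 0 := by
        rw [sub_pow_char, ← pow_mul, mul_comm m p, ← hm, hzn, one_pow, sub_self]
      have h2 : z ^ m = 1 := sub_eq_zero.1 (pow_eq_zero_iff hprime.ne_zero |>.1 h1)
      have h3 : n ∣ m := orderOf_dvd_of_pow_eq_one h2
      have hm0 : 0 < m := by
        rcases Nat.eq_zero_or_pos m with h0 | h0
        · rw [h0, mul_zero] at hm; omega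
        · exact h0
      have h4 := Nat.le_of_dvd hm0 h3
      have h5 : 2 * m ≤ p * m := Nat.mul_le_mul_right m hprime.two_le
      omega
    · have h1 : (n : D) ^ p = n := by
        have := map_natCast (frobenius D p) n
        rwa [frobenius_def] at this
      have h2 : (n : D) ^ (p - 1) = 1 := by
        have h3 : (n : D) * (n : D) ^ (p - 1) = n * 1 := by
          rw [← pow_succ', Nat.sub_add_cancel hprime.one_le, h1, mul_one]
        exact mul_left_cancel₀ hn0 h3
      obtain ⟨i, hi, hd⟩ := h (-(c * (n : D) ^ (p - 2)))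
      have h4 : 1 + x * -(c * (n : D) ^ (p - 2)) = 0 := by
        have h5 : (n : D) * (n : D) ^ (p - 2) = 1 := by
          rw [← pow_succ', show p - 2 + 1 = p - 1 by have := hprime.two_le; omega, h2]
        calc 1 + x * -(c * (n : D) ^ (p - 2)) = 1 - (x * c) * (n : D) ^ (p - 2) := by ring
          _ = 0 := by rw [← hc, h5, sub_self]
      rw [h4, zero_pow (by omega)] at hd
      exact zero_ne_one hd
  · subst hzero
    have : CharZero D := CharP.charP_to_charZero D
    obtain ⟨i, hi, hd⟩ := h c
    rw [← hc] at hd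
    have h1 : ((1 + n : ℕ) : D) ^ i = ((1 : ℕ) : D) := by push_cast; exact hd
    have h2 : (1 + n) ^ i = 1 := by exact_mod_cast h1
    have h3 : 1 < (1 + n) ^ i := Nat.one_lt_pow (by omega) (by omega)
    omega

/-- The Jacobson radical of a `π`-UU ring (each unit has a positive power in `1 + Nil(R)`) is nil. -/
theorem result (R : Type u) [Ring R]
    (hR : ∀ v : Rˣ, ∃ i : ℕ, 1 ≤ i ∧ ∃ b : R, IsNilpotent b ∧ (v : R) ^ i = 1 + b) :
    ∀ j ∈ Ring.jacobson R, IsNilpotent j := by
  intro j hj
  by_contra hnil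
  set φ : ℤ[X] →ₐ[ℤ] R := aeval j with hφ
  have hX : (X : ℤ[X]) ∉ (RingHom.ker φ).radical := by
    rintro ⟨n, hn⟩
    rw [RingHom.mem_ker] at hn
    apply hnil
    refine ⟨n, ?_⟩
    rw [← hn, map_pow, hφ, aeval_X]
  rw [Ideal.radical_eq_sInf, Submodule.mem_sInf] at hX
  push Not at hX
  obtain ⟨P, ⟨hP, hprime⟩, hXP⟩ := hX
  refine domain_contra (D := ℤ[X] ⧸ P) (x := Ideal.Quotient.mk P X)
    (fun h0 => hXP (Ideal.Quotient.eq_zero_iff_mem.1 h0)) ?_
  intro d
  obtain ⟨q, rfl⟩ := Ideal.Quotient.mk_surjective d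
  have hu : IsUnit (1 + j * φ q) :=
    isUnit_one_add_of_mem_jacobson (jacobson_mul_mem_right hj _)
  obtain ⟨v, hv⟩ := hu
  obtain ⟨i, hi, b, ⟨n, hn⟩, hb⟩ := hR v
  refine ⟨i, hi, ?_⟩
  have h1 : φ (((1 + X * q) ^ i - 1) ^ n) = 0 := by
    have h2 : φ (1 + X * q) = 1 + j * φ q := by
      rw [map_add, map_one, map_mul, hφ, aeval_X]
    rw [map_pow, map_sub, map_pow, map_one, h2, ← hv, hb, add_sub_cancel_left, hn]
  have h3 : (1 + X * q) ^ i - 1 ∈ P := by
    apply hprime.mem_of_pow_mem n
    exact hP (by rw [RingHom.mem_ker]; exact h1)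
  have h4 := Ideal.Quotient.eq_zero_iff_mem.2 h3
  rw [map_sub, map_pow, map_add, map_one, map_mul, sub_eq_zero] at h4
  exact h4

end Pool.Agent.Results.MP_c8c065_al.JacobsonNil
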